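import Mathlib
import Pool.Agent.Helper28.BA.Final2

set_option autoImplicit false

namespace Pool.Agent.Helper28.Parked.IwAsymptoticallySharp

/-- A bound for the Beurling-Ahlfors transform on `L^p`, `P = max p (p / (p - 1))`: at most
`1.27 (P - 1)` for every `p > 1`, at most `4.97^(5/3 - 10/(3P))` if `P ≤ 5`, and at most
`(π (P + 1) / 2)^(1/(2P)) (P - 1)` if `P > 5`; the last factor tends to `1`. -/
theorem result (p : ℝ) (hp : 1 < p) (f : ℂ → ℂ) (hf : ContDiff ℝ 1 f) (hc : HasCompactSupport f) :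
    ∫ z, ‖(1 / 2 : ℂ) * (fderiv ℝ f z 1 + Complex.I * fderiv ℝ f z Complex.I)‖ ^ p
      ≤ (min (127 / 100 * (max p (p / (p - 1)) - 1))
          (if max p (p / (p - 1)) ≤ 5
            then (497 / 100) ^ (5 / 3 - 10 / (3 * max p (p / (p - 1))))
            else (Real.pi * (max p (p / (p - 1)) + 1) / 2) ^ (1 / (2 * max p (p / (p - 1)))) *
              (max p (p / (p - 1)) - 1))) ^ p *
        ∫ z, ‖(1 / 2 : ℂ) * (fderiv ℝ f z 1 - Complex.I * fderiv ℝ f z Complex.I)‖ ^ p :=
  Pool.Agent.Helper28.BA.thmK p hp f hf hc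

end Pool.Agent.Helper28.Parked.IwAsymptoticallySharp
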