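import Mathlib
import Pool.Agent.Helper28.Iw.Circ

set_option autoImplicit false

namespace Pool.Agent.Helper28.Parked.IwCirclesToCircles

/-- Iwaniec's inequality, with the conjectured sharp constant, for every compactly supported `C¹`
map `f` which sends each circle centred at `z₀` into a circle (or point) centred at `w₀`. -/
theorem result (p : ℝ) (hp : 1 < p) (f : ℂ → ℂ) (hf : ContDiff ℝ 1 f) (hc : HasCompactSupport f)
    (z₀ w₀ : ℂ) (H : ∀ z w : ℂ, ‖z - z₀‖ = ‖w - z₀‖ → ‖f z - w₀‖ = ‖f w - w₀‖) :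
    ∫ z, ‖(1 / 2 : ℂ) * (fderiv ℝ f z 1 + Complex.I * fderiv ℝ f z Complex.I)‖ ^ p
      ≤ (max p (p / (p - 1)) - 1) ^ p *
        ∫ z, ‖(1 / 2 : ℂ) * (fderiv ℝ f z 1 - Complex.I * fderiv ℝ f z Complex.I)‖ ^ p :=
  Pool.Agent.Helper28.Iw.reduce hp hf hc
    (Pool.Agent.Helper28.Iw.circ_main' hp hf hc z₀ w₀ H)

end Pool.Agent.Helper28.Parked.IwCirclesToCircles
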