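import Mathlib
import Pool.Agent.Helper28.BA.Final

set_option autoImplicit false

namespace Pool.Agent.Helper28.Parked.IwGradientFields

/-- Iwaniec's inequality with the conjectured sharp constant for all maps with `∂f` real valued
(up to a constant factor) if `p ≤ 2`, and for all maps with `∂̄f` real valued if `p ≥ 2`. -/
theorem result (p : ℝ) (hp : 1 < p) (f : ℂ → ℂ) (hf : ContDiff ℝ 1 f) (hc : HasCompactSupport f)
    (c : ℂ) (H : (p ≤ 2 ∧ ∀ z, ∃ r : ℝ,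
        (1 / 2 : ℂ) * (fderiv ℝ f z 1 - Complex.I * fderiv ℝ f z Complex.I) = r * c) ∨
      (2 ≤ p ∧ ∀ z, ∃ r : ℝ,
        (1 / 2 : ℂ) * (fderiv ℝ f z 1 + Complex.I * fderiv ℝ f z Complex.I) = r * c)) :
    ∫ z, ‖(1 / 2 : ℂ) * (fderiv ℝ f z 1 + Complex.I * fderiv ℝ f z Complex.I)‖ ^ p
      ≤ (max p (p / (p - 1)) - 1) ^ p *
        ∫ z, ‖(1 / 2 : ℂ) * (fderiv ℝ f z 1 - Complex.I * fderiv ℝ f z Complex.I)‖ ^ p :=
  Pool.Agent.Helper28.BA.thmB p hp f hf hc c H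

end Pool.Agent.Helper28.Parked.IwGradientFields
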