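import Mathlib
import Pool.Agent.Helper28.Iw.Ray

set_option autoImplicit false

namespace Pool.Agent.Helper28.Parked.IwRaysToLines

/-- Iwaniec's inequality, with the conjectured sharp constant, for every compactly supported `C¹`
map `f` which sends each ray from the origin into a line through the origin, where the line
carrying the image of the ray at angle `θ` has angle `ω θ`. -/
theorem result (p : ℝ) (hp : 1 < p) (f : ℂ → ℂ) (hf : ContDiff ℝ 1 f) (hc : HasCompactSupport f)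
    (ω : ℝ → ℝ) (hω : Differentiable ℝ ω)
    (hray : ∀ r : ℝ, 0 < r → ∀ θ : ℝ, ∃ s : ℝ,
      f (r * Complex.exp (θ * Complex.I)) = s * Complex.exp (ω θ * Complex.I))
    (ha : 2 < p → ∀ θ : ℝ, 0 ≤ deriv ω θ ∨ deriv ω θ ≤ -1)
    (hb : p < 2 → ∀ θ : ℝ, deriv ω θ ≤ 0 ∨ 1 ≤ deriv ω θ) :
    ∫ z, ‖(1 / 2 : ℂ) * (fderiv ℝ f z 1 + Complex.I * fderiv ℝ f z Complex.I)‖ ^ p
      ≤ (max p (p / (p - 1)) - 1) ^ p *
        ∫ z, ‖(1 / 2 : ℂ) * (fderiv ℝ f z 1 - Complex.I * fderiv ℝ f z Complex.I)‖ ^ p :=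
  Pool.Agent.Helper28.Iw.reduce hp hf hc
    (Pool.Agent.Helper28.Iw.rays_main hp hf hc hω hray ha hb)

end Pool.Agent.Helper28.Parked.IwRaysToLines
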